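import Pool.Agent.Q174.BM.Main
import Pool.Agent.Q174.BM.Sym

/-!
# Bohr sets in `2A - 2A` for sets with many approximate affine symmetries

Let `A ⊆ ℤ/N` have density `α` and let `S` be a set of units `h` with `h A + t_h` close to `A` for some `t_h`. If `M` is
a multiple of all divisors `q` of `N` for which the elements of `S` have fewer than `4 α^{-2}` residues modulo `q` then
`M ℤ/N ⊆ 2A - 2A`, and this subgroup contains a Bohr set of dimension at most `log₂ M + 1` and radius `1/5`.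

Proof. The large Fourier coefficients of `A` are nearly invariant under the factors `h`, so by Parseval their
frequencies have an order which divides `M` (`Sym`); then the argument of Bogolyubov.
-/

set_option autoImplicit false

namespace Pool.Agent.Results.MP_169871_nt.ApproximateSymmetries

/-- The Bohr set `B(Γ, ε) = {x ∈ ℤ/N : ‖γ x / N‖ ≤ ε for all γ ∈ Γ}`; the norm is the distance to the nearest
integer. -/
def bohr {N : ℕ} (Γ : Finset (ZMod N)) (ε : ℝ) : Set (ZMod N) :=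
  {x | ∀ γ ∈ Γ, |((γ * x).val : ℝ) / (N : ℝ) - ((round (((γ * x).val : ℝ) / (N : ℝ)) : ℤ) : ℝ)| ≤ ε}

/-- The set `2A - 2A`. -/
def twoAMinusTwoA {N : ℕ} (A : Finset (ZMod N)) : Set (ZMod N) :=
  {x | ∃ a₁ ∈ A, ∃ a₂ ∈ A, ∃ a₃ ∈ A, ∃ a₄ ∈ A, x = a₁ + a₂ - a₃ - a₄}

/-- A subgroup of index `M` contains a Bohr set of dimension at most `log₂ M + 1` and radius `1/5`. -/
theorem bohr_of_subgroup {N : ℕ} (hN : 0 < N) (M : ℕ) (hM : M ∣ N) (S : Set (ZMod N))
    (hS : ∀ w : ZMod N, (M : ZMod N) * w ∈ S) :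
    ∃ Γ : Finset (ZMod N), Γ.card ≤ Nat.log 2 M + 1 ∧ bohr Γ (1 / 5) ⊆ S := by
  have : NeZero N := ⟨hN.ne'⟩
  refine ⟨(Finset.range (Nat.log 2 M + 1)).image fun i => ((2 ^ i * (N / M) : ℕ) : ZMod N), ?_, ?_⟩
  · exact Finset.card_image_le.trans (le_of_eq (Finset.card_range _))
  · intro x hx
    have h1 : M ∣ x.val := by
      refine Pool.Agent.Q174.BM.dvd_of_bohr M hM x fun i hi => ?_
      exact ⟨_, hx _ (Finset.mem_image.2 ⟨i, Finset.mem_range.2 (by omega), rfl⟩)⟩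
    obtain ⟨w, hw⟩ := h1
    have h2 : x = (M : ZMod N) * (w : ZMod N) := by
      rw [← Nat.cast_mul, ← hw, ZMod.natCast_zmod_val]
    rw [h2]
    exact hS _

/-- **Bohr sets in `2A - 2A` for sets with many approximate affine symmetries.** -/
theorem result :
    (∀ N : ℕ, 0 < N → ∀ A S : Finset (ZMod N), A.Nonempty →
      (∀ h ∈ S, IsUnit h ∧ ∃ t : ZMod N,
        (1 - Real.sqrt (A.card / N) / 4) * A.card ≤ ((A.filter fun a => h * a + t ∈ A).card : ℝ)) →
      ∀ M : ℕ, M ∣ N →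
        (∀ q : ℕ, q ∣ N → ((S.image fun h => h.val % q).card : ℝ) < 4 * ((N : ℝ) / A.card) ^ 2 → q ∣ M) →
        (∀ w : ZMod N, (M : ZMod N) * w ∈ twoAMinusTwoA A) ∧
        ∃ Γ : Finset (ZMod N), Γ.card ≤ Nat.log 2 M + 1 ∧ bohr Γ (1 / 5) ⊆ twoAMinusTwoA A) := by
  intro N hN A S hA hS M hMN hM
  have : NeZero N := ⟨hN.ne'⟩
  have h1 : ∀ w : ZMod N, (M : ZMod N) * w ∈ twoAMinusTwoA A :=
    fun w => Pool.Agent.Q174.BM.many_symmetries A hA S hS M hM w
  exact ⟨h1, bohr_of_subgroup hN M hMN _ h1⟩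

end Pool.Agent.Results.MP_169871_nt.ApproximateSymmetries
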