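import Pool.Agent.Q174.BM.Main

/-!
# Bohr sets in `2A - 2A` for sets which contain dilates of powers

The conclusion of Q1, with the constant radius `1/5`, for the sets `A ⊆ ℤ/N` which contain translates of the dilates
`{u^m d : u a unit}` of the `m`-th powers for many `d`; this includes the sets which are invariant under
multiplication, about some centre, by a subgroup of bounded index of the group of units of `ℤ/N`.

Proof. Let `L` be `m²` times the product of the primes `p ≤ 16 m⁴`. Every multiple of `L` in `ℤ/N` is a difference of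
two `m`-th powers of units: modulo a prime `p > 16 m⁴` by a second moment argument for the lines `y = a x + b` and the
set `H × H`, `H` the group of `m`-th powers (`Fp`), modulo prime powers by Hensel's lemma, in general by the Chinese
remainder theorem (`Rep`). Hence `A - A` contains `L d ℤ/N` for every `d ∈ D`, and `2A - 2A` contains
`L gcd (d, d', N) ℤ/N`; a counting argument gives `d, d'` with a small gcd. At last the subgroup `M ℤ/N` contains a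
Bohr set of dimension `log₂ M + 1` and radius `1/5`.
-/

set_option autoImplicit false

namespace Pool.Agent.Results.MP_169871_nt.DilatesOfPowers

/-- The Bohr set `B(Γ, ε) = {x ∈ ℤ/N : ‖γ x / N‖ ≤ ε for all γ ∈ Γ}`; the norm is the distance to the nearest
integer. -/
def bohr {N : ℕ} (Γ : Finset (ZMod N)) (ε : ℝ) : Set (ZMod N) :=
  {x | ∀ γ ∈ Γ, |((γ * x).val : ℝ) / (N : ℝ) - ((round (((γ * x).val : ℝ) / (N : ℝ)) : ℤ) : ℝ)| ≤ ε}

/-- The set `2A - 2A`. -/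
def twoAMinusTwoA {N : ℕ} (A : Finset (ZMod N)) : Set (ZMod N) :=
  {x | ∃ a₁ ∈ A, ∃ a₂ ∈ A, ∃ a₃ ∈ A, ∃ a₄ ∈ A, x = a₁ + a₂ - a₃ - a₄}

/-- A subgroup of index `M` contains a Bohr set of dimension at most `log₂ M + 1` and radius `1/5`. -/
theorem bohr_of_subgroup {N : ℕ} (hN : 0 < N) (M : ℕ) (hM : M ∣ N) (S : Set (ZMod N))
    (hS : ∀ w : ZMod N, (M : ZMod N) * w ∈ S) :
    ∃ Γ : Finset (ZMod N), Γ.card ≤ Nat.log 2 M + 1 ∧ bohr Γ (1 / 5) ⊆ S := by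
  have : NeZero N := ⟨hN.ne'⟩
  refine ⟨(Finset.range (Nat.log 2 M + 1)).image fun i => ((2 ^ i * (N / M) : ℕ) : ZMod N), ?_, ?_⟩
  · exact Finset.card_image_le.trans (le_of_eq (Finset.card_range _))
  · intro x hx
    have h1 : M ∣ x.val := by
      refine Pool.Agent.Q174.BM.dvd_of_bohr M hM x fun i hi => ?_
      exact ⟨_, hx _ (Finset.mem_image.2 ⟨i, Finset.mem_range.2 (by omega), rfl⟩)⟩
    obtain ⟨w, hw⟩ := h1
    have h2 : x = (M : ZMod N) * (w : ZMod N) := by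
      rw [← Nat.cast_mul, ← hw, ZMod.natCast_zmod_val]
    rw [h2]
    exact hS _

theorem log_bound {m : ℕ} (hm : 0 < m) {M : ℕ} (hM0 : 0 < M) {r : ℝ} (hr : 1 ≤ r)
    (hM : (M : ℝ) ≤ Real.exp (25 * m ^ 4) * r ^ 2) :
    ((Nat.log 2 M + 1 : ℕ) : ℝ) ≤ 40 * (Real.log r + m ^ 4) := by
  have hm1 : (1 : ℝ) ≤ (m : ℝ) ^ 4 := one_le_pow₀ (by exact_mod_cast hm)
  have hlogr : 0 ≤ Real.log r := Real.log_nonneg hr
  have h2 : (0.69 : ℝ) < Real.log 2 := lt_trans (by norm_num) Real.log_two_gt_d9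
  have hMR : (0 : ℝ) < M := by exact_mod_cast hM0
  have h3 : (Nat.log 2 M : ℝ) * Real.log 2 ≤ Real.log M := by
    have h4 : (2 : ℝ) ^ (Nat.log 2 M) ≤ (M : ℝ) := by exact_mod_cast Nat.pow_log_le_self 2 hM0.ne'
    have h5 := Real.log_le_log (by positivity) h4
    rwa [Real.log_pow] at h5
  have h6 : Real.log M ≤ 25 * m ^ 4 + 2 * Real.log r := by
    have h7 := Real.log_le_log hMR hM
    rw [Real.log_mul (Real.exp_ne_zero _) (by positivity), Real.log_exp, Real.log_pow] at h7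
    exact_mod_cast h7
  have h8 : (Nat.log 2 M : ℝ) * 0.69 ≤ (Nat.log 2 M : ℝ) * Real.log 2 :=
    mul_le_mul_of_nonneg_left h2.le (Nat.cast_nonneg _)
  push_cast
  linarith

theorem const_bound {m : ℕ} (hm : 0 < m) {r M : ℝ} (hM : M ≤ 2 * (m : ℝ) ^ 2 * 4 ^ (16 * m ^ 4) * r ^ 2) :
    M ≤ Real.exp (25 * m ^ 4) * r ^ 2 := by
  refine hM.trans (mul_le_mul_of_nonneg_right ?_ (sq_nonneg _))
  have hm1 : (1 : ℝ) ≤ (m : ℝ) := by exact_mod_cast hm
  have hm4 : (m : ℝ) ≤ (m : ℝ) ^ 4 := le_self_pow₀ hm1 (by norm_num)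
  have h1 : (1 : ℝ) ≤ (m : ℝ) ^ 4 := one_le_pow₀ hm1
  have hpos : (0 : ℝ) < 2 * (m : ℝ) ^ 2 * 4 ^ (16 * m ^ 4) := by positivity
  rw [← Real.log_le_iff_le_exp hpos, Real.log_mul (by positivity) (by positivity),
    Real.log_mul (by norm_num) (by positivity), Real.log_pow, Real.log_pow]
  have h4 : Real.log 4 = 2 * Real.log 2 := by
    rw [show (4 : ℝ) = 2 ^ 2 by norm_num, Real.log_pow]
    norm_num
  have h2 : Real.log 2 < 0.6932 := lt_trans Real.log_two_lt_d9 (by norm_num)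
  have h2' : 0 < Real.log 2 := Real.log_pos (by norm_num)
  have h3 : Real.log m ≤ m - 1 := Real.log_le_sub_one_of_pos (by positivity)
  rw [h4]
  push_cast
  nlinarith

/-- The sets which contain translates of many dilates of the `m`-th powers. -/
theorem part_one (m N : ℕ) (hm : 0 < m) (hN : 0 < N) (A D : Finset (ZMod N)) (hD : D.Nonempty)
    (hA : ∀ d ∈ D, ∃ t : ZMod N, ∀ u : ZMod N, IsUnit u → t + u ^ m * d ∈ A) :
    (∃ M : ℕ, M ∣ N ∧ (M : ℝ) ≤ Real.exp (25 * m ^ 4) * ((N : ℝ) / D.card) ^ 2 ∧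
      ∀ w : ZMod N, (M : ZMod N) * w ∈ twoAMinusTwoA A) ∧
    (∃ Γ : Finset (ZMod N), (Γ.card : ℝ) ≤ 40 * (Real.log ((N : ℝ) / D.card) + m ^ 4) ∧
      bohr Γ (1 / 5) ⊆ twoAMinusTwoA A) := by
  have : NeZero N := ⟨hN.ne'⟩
  obtain ⟨M, hMN, hM, hw⟩ := Pool.Agent.Q174.BM.exists_subgroup m hm A D hD hA
  have hM' := const_bound hm hM
  have hM0 : 0 < M := Nat.pos_of_dvd_of_pos hMN hN
  have hr : 1 ≤ (N : ℝ) / D.card := by
    have h1 : (0 : ℝ) < D.card := by exact_mod_cast hD.card_pos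
    rw [le_div_iff₀ h1, one_mul]
    have h2 : D.card ≤ N := by
      have h := Finset.card_le_univ D
      rwa [ZMod.card] at h
    exact_mod_cast h2
  refine ⟨⟨M, hMN, hM', hw⟩, ?_⟩
  obtain ⟨Γ, hΓ, hsub⟩ := bohr_of_subgroup hN M hMN (twoAMinusTwoA A) hw
  refine ⟨Γ, ?_, hsub⟩
  have h1 : (Γ.card : ℝ) ≤ ((Nat.log 2 M + 1 : ℕ) : ℝ) := by exact_mod_cast hΓ
  exact h1.trans (log_bound hm hM0 hr hM')

/-- The sets which are invariant under a subgroup of the group of units. -/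
theorem part_two (N : ℕ) (hN : 0 < N) (H : Subgroup (ZMod N)ˣ) (A : Finset (ZMod N)) (hAne : A.Nonempty)
    (t : ZMod N) (hA : ∀ h ∈ H, ∀ a ∈ A, t + (h : ZMod N) * (a - t) ∈ A) :
    0 < H.index ∧ (∃ M : ℕ, M ∣ N ∧ (M : ℝ) ≤ Real.exp (25 * H.index ^ 4) * ((N : ℝ) / A.card) ^ 2 ∧
      ∀ w : ZMod N, (M : ZMod N) * w ∈ twoAMinusTwoA A) ∧
    (∃ Γ : Finset (ZMod N), (Γ.card : ℝ) ≤ 40 * (Real.log ((N : ℝ) / A.card) + H.index ^ 4) ∧
      bohr Γ (1 / 5) ⊆ twoAMinusTwoA A) := by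
  have : NeZero N := ⟨hN.ne'⟩
  have hindex : 0 < H.index := Nat.pos_of_ne_zero Subgroup.index_ne_zero_of_finite
  have hcard : (A.image fun a => a - t).card = A.card := Finset.card_image_of_injective _ sub_left_injective
  have h := part_one H.index N hindex hN A (A.image fun a => a - t) (hAne.image _) (by
    intro d hd
    rw [Finset.mem_image] at hd
    obtain ⟨a, ha, rfl⟩ := hd
    refine ⟨t, fun u hu => ?_⟩
    obtain ⟨v, rfl⟩ := hu
    have h1 := hA _ (H.pow_index_mem v) a ha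
    rw [Units.val_pow_eq_pow_val] at h1
    exact h1)
  rw [hcard] at h
  exact ⟨hindex, h⟩

/-- **Bohr sets in `2A - 2A` for sets which contain dilates of powers.** -/
theorem result :
    (∀ (m N : ℕ), 0 < m → 0 < N → ∀ A D : Finset (ZMod N), D.Nonempty →
      (∀ d ∈ D, ∃ t : ZMod N, ∀ u : ZMod N, IsUnit u → t + u ^ m * d ∈ A) →
      (∃ M : ℕ, M ∣ N ∧ (M : ℝ) ≤ Real.exp (25 * m ^ 4) * ((N : ℝ) / D.card) ^ 2 ∧
        ∀ w : ZMod N, (M : ZMod N) * w ∈ twoAMinusTwoA A) ∧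
      (∃ Γ : Finset (ZMod N), (Γ.card : ℝ) ≤ 40 * (Real.log ((N : ℝ) / D.card) + m ^ 4) ∧
        bohr Γ (1 / 5) ⊆ twoAMinusTwoA A)) ∧
    (∀ k : ℕ, ∃ C : ℝ, 0 < C ∧ ∃ c : ℝ, 0 < c ∧ ∀ N : ℕ, 0 < N → ∀ A : Finset (ZMod N), A.Nonempty →
      (A.card : ℝ) / (N : ℝ) ≤ 1 / 2 →
      (∃ (H : Subgroup (ZMod N)ˣ) (t : ZMod N), H.index ≤ k ∧ ∀ h ∈ H, ∀ a ∈ A, t + (h : ZMod N) * (a - t) ∈ A) →
      ∃ Γ : Finset (ZMod N), ∃ ε : ℝ, 0 < ε ∧ (Γ.card : ℝ) ≤ C * Real.log ((N : ℝ) / (A.card : ℝ)) ∧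
        c / Real.log ((N : ℝ) / (A.card : ℝ)) ≤ ε ∧ bohr Γ ε ⊆ twoAMinusTwoA A) := by
  refine ⟨fun m N hm hN A D hD hA => part_one m N hm hN A D hD hA, fun k => ?_⟩
  refine ⟨40 * (1 + 2 * (k : ℝ) ^ 4), by positivity, 1 / 10, by norm_num, fun N hN A hAne hdens hH => ?_⟩
  obtain ⟨H, t, hk, hinv⟩ := hH
  obtain ⟨hpos, _, Γ, hΓ, hsub⟩ := part_two N hN H A hAne t hinv
  have hNR : (0 : ℝ) < N := by exact_mod_cast hN
  have hA0 : (0 : ℝ) < A.card := by exact_mod_cast hAne.card_pos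
  have h2 : 2 ≤ (N : ℝ) / A.card := by
    rw [le_div_iff₀ hA0]
    rw [div_le_iff₀ hNR] at hdens
    linarith
  have hlog : 1 / 2 ≤ Real.log ((N : ℝ) / A.card) := by
    have h3 : Real.log 2 ≤ Real.log ((N : ℝ) / A.card) := Real.log_le_log (by norm_num) h2
    have h4 : (0.69 : ℝ) < Real.log 2 := lt_trans (by norm_num) Real.log_two_gt_d9
    linarith
  refine ⟨Γ, 1 / 5, by norm_num, ?_, ?_, hsub⟩
  · have h5 : (H.index : ℝ) ^ 4 ≤ (k : ℝ) ^ 4 :=
      pow_le_pow_left₀ (Nat.cast_nonneg _) (by exact_mod_cast hk) 4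
    have h6 : (k : ℝ) ^ 4 * 1 ≤ (k : ℝ) ^ 4 * (2 * Real.log ((N : ℝ) / A.card)) :=
      mul_le_mul_of_nonneg_left (by linarith) (by positivity)
    calc (Γ.card : ℝ) ≤ 40 * (Real.log ((N : ℝ) / A.card) + H.index ^ 4) := hΓ
      _ ≤ 40 * (Real.log ((N : ℝ) / A.card) + (k : ℝ) ^ 4 * (2 * Real.log ((N : ℝ) / A.card))) := by linarith
      _ = 40 * (1 + 2 * (k : ℝ) ^ 4) * Real.log ((N : ℝ) / A.card) := by ring
  · rw [div_le_iff₀ (by linarith)]
    linarith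

end Pool.Agent.Results.MP_169871_nt.DilatesOfPowers
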