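import Pool.Agent.H104.BS.D
import Pool.Agent.H104.BS.E

/-!
# Bohr sets inside convex coset progressions that are as improper as one likes

A centred convex coset progression of dimension `n` in an abelian group is a set `P = ψ(ℤⁿ ∩ B) + H`, where `B` is a
symmetric convex body in `ℝⁿ`, `ψ` any homomorphism on `ℤⁿ` (not injective on `ℤⁿ ∩ B`, in general) and `H` a finite
subgroup. Its size is measured by the number `|P|` of its elements.

* Part (1): it contains a proper coset progression of dimension at most `n` with at least `|P| / (12288 (n + 1)⁷)ⁿ`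
  elements.
* Part (2): in `ℤ/N` it contains, for every `R ≥ n + 2`, a Bohr set of radius `1 / (8 R)` with at most
  `255 n + 1 + 5 log (N / |P|) / log R` frequencies.
* Part (3): if `|A ∩ (t + P)| ≥ δ |P₁₊ᵣ|`, where `P₁₊ᵣ` is the progression of the body `(1 + r) B`, then for
  `R ≥ max (n + 3) (1/δ)` the set `2A - 2A` contains a Bohr set of radius `1 / (8 R)` with at most
  `380 n + 301 + 5 (log (N / |P|) + n log (1/r)) / log R + 32 / δ²` frequencies.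
* Part (4): the conclusion of Q1 if `P` has dimension `O(log (1/α))` and density `exp (- O(log (1/α) log log (1/α)))`,
  and `2A - 2A` contains `P`, or `A` contains a translate of `P`.
* Part (5): the same if `|A ∩ (t + P)| ≥ δ |P₁₊ᵣ|` with `δ ≥ (C log (1/α)) ^ (-1/2)` and `r ≥ (2 + log (1/α)) ^ (-C)`.
* Part (6): Q1 is equivalent to the existence of such a `P` in `2A - 2A` for every `A` of density `α ≤ 1/2`.
-/

set_option autoImplicit false

namespace Pool.Agent.Results.MP_169871_nt.ImproperProgressions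

universe u

/-- The Bohr set `B(Γ, ε) = {x ∈ ℤ/N : ‖γ x / N‖ ≤ ε for all γ ∈ Γ}`; the norm is the distance to the nearest
integer. -/
def bohr {N : ℕ} (Γ : Finset (ZMod N)) (ε : ℝ) : Set (ZMod N) :=
  {x | ∀ γ ∈ Γ, |((γ * x).val : ℝ) / (N : ℝ) - ((round (((γ * x).val : ℝ) / (N : ℝ)) : ℤ) : ℝ)| ≤ ε}

/-- The set `2A - 2A`. -/
def twoAMinusTwoA {N : ℕ} (A : Finset (ZMod N)) : Set (ZMod N) :=
  {x | ∃ a₁ ∈ A, ∃ a₂ ∈ A, ∃ a₃ ∈ A, ∃ a₄ ∈ A, x = a₁ + a₂ - a₃ - a₄}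

/-- `B` is a symmetric convex body. -/
def Body {n : ℕ} (B : Set (Fin n → ℝ)) : Prop :=
  Convex ℝ B ∧ IsCompact B ∧ (interior B).Nonempty ∧ ∀ x ∈ B, -x ∈ B

/-- The centred convex coset progression `ψ(ℤⁿ ∩ B) + H`, proper or not. -/
def convProg {G : Type*} [AddCommGroup G] {n : ℕ} (B : Set (Fin n → ℝ)) (ψ : (Fin n → ℤ) →+ G)
    (H : AddSubgroup G) : Set G :=
  {g | ∃ z : Fin n → ℤ, (fun i => (z i : ℝ)) ∈ B ∧ ∃ h ∈ H, g = ψ z + h}

/-- `log (1/α)` for the density `α` of `A`. -/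
noncomputable def lg {N : ℕ} (A : Finset (ZMod N)) : ℝ := Real.log ((N : ℝ) / (A.card : ℝ))

/-- The conclusion of Q1 for the set `A`, with the constants `C` and `c`. -/
def Concl (C c : ℝ) {N : ℕ} (A : Finset (ZMod N)) : Prop :=
  ∃ (Γ : Finset (ZMod N)) (ε : ℝ), 0 < ε ∧ (Γ.card : ℝ) ≤ C * lg A ∧ c / lg A ≤ ε ∧
    bohr Γ ε ⊆ twoAMinusTwoA A

/-- Q1. -/
def Q1 : Prop :=
  ∃ C : ℝ, 0 < C ∧ ∃ c : ℝ, 0 < c ∧ ∀ N : ℕ, 0 < N → ∀ A : Finset (ZMod N), A.Nonempty →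
    (A.card : ℝ) / (N : ℝ) ≤ 1 / 2 → Concl C c A

/-- `n ≤ C log (1/α)` and `|P| ≥ N exp (- C log (1/α) log (2 + log (1/α)))`. -/
def Large (C : ℝ) {N : ℕ} (A : Finset (ZMod N)) (n : ℕ) (P : Set (ZMod N)) : Prop :=
  (n : ℝ) ≤ C * lg A ∧ Real.log ((N : ℝ) / (P.ncard : ℝ)) ≤ C * lg A * Real.log (2 + lg A)

open H104.BS Pool.Agent.TH858 Pool.Agent.Y806.DF Q123.VP
open scoped Pointwise

theorem convProg_eq {G : Type*} [AddCommGroup G] {n : ℕ} (B : Set (Fin n → ℝ))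
    (ψ : (Fin n → ℤ) →+ G) (H : AddSubgroup G) : convProg B ψ H = img ψ H (lat B) := rfl

theorem mem_bohr {N : ℕ} (Γ : Finset (ZMod N)) (ε : ℝ) (x : ZMod N) :
    x ∈ bohr Γ ε ↔ ∀ γ ∈ Γ, CB.nn (γ * x) ≤ ε := Iff.rfl

/-- Part (2). -/
theorem part_two (N : ℕ) (hN : 0 < N) (n : ℕ) (B : Set (Fin n → ℝ)) (hB : Body B)
    (ψ : (Fin n → ℤ) →+ ZMod N) (H : AddSubgroup (ZMod N)) (R : ℝ) (hR : (n : ℝ) + 2 ≤ R) :
    ∃ Γ : Finset (ZMod N),
      (Γ.card : ℝ) ≤ 255 * n + 1 + 5 * (Real.log ((N : ℝ) / ((convProg B ψ H).ncard : ℝ)) / Real.log R) ∧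
      bohr Γ (1 / (8 * R)) ⊆ convProg B ψ H := by
  have : NeZero N := ⟨hN.ne'⟩
  obtain ⟨G, h1, h2⟩ := bohr_in_img hB ψ H hR
  exact ⟨G, h1, fun x hx => h2 x hx⟩

/-- Part (3). -/
theorem part_dense (N : ℕ) (hN : 0 < N) (A : Finset (ZMod N)) (n : ℕ) (B : Set (Fin n → ℝ)) (hB : Body B)
    (ψ : (Fin n → ℤ) →+ ZMod N) (H : AddSubgroup (ZMod N)) (t : ZMod N) (r δ R : ℝ) (hr : 0 < r) (hr1 : r ≤ 1)
    (hδ : 0 < δ) (hR : (n : ℝ) + 3 ≤ R) (hδR : 1 ≤ δ * R)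
    (hdens : δ * ((convProg ((1 + r) • B) ψ H).ncard : ℝ) ≤
      ({y : ZMod N | y ∈ A ∧ y - t ∈ convProg B ψ H}.ncard : ℝ)) :
    ∃ Γ : Finset (ZMod N),
      (Γ.card : ℝ) ≤ 380 * n + 301 +
        5 * ((Real.log ((N : ℝ) / ((convProg B ψ H).ncard : ℝ)) + n * Real.log (1 / r)) / Real.log R) +
        32 / δ ^ 2 ∧
      bohr Γ (1 / (8 * R)) ⊆ twoAMinusTwoA A := by
  have : NeZero N := ⟨hN.ne'⟩
  classical
  obtain ⟨A', hA'⟩ : ∃ A' : Finset (ZMod N), A' = A.filter fun y => y - t ∈ convProg B ψ H := ⟨_, rfl⟩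
  have h0 : {y : ZMod N | y ∈ A ∧ y - t ∈ convProg B ψ H}.ncard = A'.card := by
    rw [← Set.ncard_coe_finset, hA']
    congr 1
    ext y
    simp
  rw [h0] at hdens
  obtain ⟨G, h1, h2⟩ := dense_img hB ψ H hr hr1 hδ hR hδR A' t (fun y hy => by
    rw [hA'] at hy
    exact (Finset.mem_filter.1 hy).2) hdens
  refine ⟨G, h1, fun x hx => ?_⟩
  obtain ⟨a₁, h3, a₂, h4, a₃, h5, a₄, h6, h7⟩ := h2 x hx
  have hsub : A' ⊆ A := by rw [hA']; exact Finset.filter_subset _ _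
  exact ⟨a₁, hsub h3, a₂, hsub h4, a₃, hsub h5, a₄, hsub h6, h7⟩

theorem lg_ge {N : ℕ} (hN : 0 < N) {A : Finset (ZMod N)} (hA : A.Nonempty)
    (hα : (A.card : ℝ) / (N : ℝ) ≤ 1 / 2) : Real.log 2 ≤ lg A := by
  have hNpos : (0 : ℝ) < N := by exact_mod_cast hN
  have hApos : (0 : ℝ) < A.card := by exact_mod_cast hA.card_pos
  refine Real.log_le_log (by norm_num) ?_
  rw [div_le_iff₀ hNpos] at hα
  rw [le_div_iff₀ hApos]
  linarith

/-- Part (4). -/
theorem part_three (C : ℝ) (hC : 0 < C) (N : ℕ) (hN : 0 < N) (A : Finset (ZMod N)) (hA : A.Nonempty)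
    (hα : (A.card : ℝ) / (N : ℝ) ≤ 1 / 2) (n : ℕ) (B : Set (Fin n → ℝ)) (hB : Body B)
    (ψ : (Fin n → ℤ) →+ ZMod N) (H : AddSubgroup (ZMod N)) (hP : Large C A n (convProg B ψ H))
    (hsub : convProg B ψ H ⊆ twoAMinusTwoA A ∨ ∃ t : ZMod N, ∀ x ∈ convProg B ψ H, t + x ∈ A) :
    Concl (265 * C + 2) (1 / (8 * (C + 3))) A := by
  have hsub' : convProg B ψ H ⊆ twoAMinusTwoA A := by
    rcases hsub with h | ⟨t, ht⟩
    · exact h
    · intro x hx
      have h0 : (0 : ZMod N) ∈ convProg B ψ H := by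
        refine ⟨0, ?_, 0, H.zero_mem, by rw [map_zero, add_zero]⟩
        have h1 := (H104.MC.sym_of_body (n := n) (B := B) hB).zero
        have h2 : (fun i => (((0 : Fin n → ℤ) i : ℤ) : ℝ)) = (0 : Fin n → ℝ) := by
          funext i
          simp
        rw [h2]
        exact h1
      have h1 := ht x hx
      have h2 := ht 0 h0
      rw [add_zero] at h2
      exact ⟨t + x, h1, t, h2, t, h2, t, h2, by abel⟩
  obtain ⟨l, hl⟩ : ∃ l : ℝ, l = lg A := ⟨_, rfl⟩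
  have hl2 := lg_ge hN hA hα
  unfold Large at hP
  unfold Concl
  rw [← hl] at hP hl2 ⊢
  obtain ⟨hd, hdens⟩ := hP
  have hlog2 := Real.log_two_gt_d9
  have hl0 : 0 < l := by linarith
  obtain ⟨R, hR⟩ : ∃ R : ℝ, R = (C + 3) * l := ⟨_, rfl⟩
  have hCl : 0 < C * l := mul_pos hC hl0
  have hR3 : 3 * l ≤ R := by
    rw [hR]; nlinarith
  have hRC : C * l + 2 ≤ R := by
    rw [hR]; nlinarith
  have hR2 : 2 ≤ R := by linarith
  have hlogR : 0 < Real.log R := Real.log_pos (by linarith)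
  obtain ⟨Γ, hΓ, hΓ'⟩ := part_two N hN n B hB ψ H R (by linarith)
  refine ⟨Γ, 1 / (8 * R), by positivity, ?_, ?_, hΓ'.trans hsub'⟩
  · have h1 : Real.log (2 + l) ≤ 2 * Real.log R := by
      have h2 : 2 + l ≤ R ^ 2 := by nlinarith
      calc Real.log (2 + l) ≤ Real.log (R ^ 2) := Real.log_le_log (by linarith) h2
        _ = 2 * Real.log R := by rw [Real.log_pow]; norm_num
    have h3 : Real.log ((N : ℝ) / ((convProg B ψ H).ncard : ℝ)) / Real.log R ≤ 2 * (C * l) := by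
      rw [div_le_iff₀ hlogR]
      calc Real.log ((N : ℝ) / ((convProg B ψ H).ncard : ℝ)) ≤ C * l * Real.log (2 + l) := hdens
        _ ≤ C * l * (2 * Real.log R) := mul_le_mul_of_nonneg_left h1 hCl.le
        _ = 2 * (C * l) * Real.log R := by ring
    calc (Γ.card : ℝ) ≤ 255 * n + 1 + 5 * (Real.log ((N : ℝ) / ((convProg B ψ H).ncard : ℝ)) / Real.log R) := hΓ
      _ ≤ 255 * (C * l) + 2 * l + 5 * (2 * (C * l)) := by linarith
      _ = (265 * C + 2) * l := by ring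
  · rw [hR, div_div]
    refine le_of_eq ?_
    congr 1
    ring

/-- Part (5). -/
theorem part_five (C : ℝ) (hC : 0 < C) (N : ℕ) (hN : 0 < N) (A : Finset (ZMod N)) (hA : A.Nonempty)
    (hα : (A.card : ℝ) / (N : ℝ) ≤ 1 / 2) (n : ℕ) (B : Set (Fin n → ℝ)) (hB : Body B)
    (ψ : (Fin n → ℤ) →+ ZMod N) (H : AddSubgroup (ZMod N)) (hP : Large C A n (convProg B ψ H))
    (t : ZMod N) (r δ : ℝ) (hr : 0 < r) (hr1 : r ≤ 1) (hrl : Real.log (1 / r) ≤ C * Real.log (2 + lg A))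
    (hδ : 0 < δ) (hδl : 1 ≤ C * lg A * δ ^ 2)
    (hdens : δ * ((convProg ((1 + r) • B) ψ H).ncard : ℝ) ≤
      ({y : ZMod N | y ∈ A ∧ y - t ∈ convProg B ψ H}.ncard : ℝ)) :
    Concl (10 * C ^ 2 + 422 * C + 440) (1 / (8 * (C + 5))) A := by
  obtain ⟨l, hl⟩ : ∃ l : ℝ, l = lg A := ⟨_, rfl⟩
  have hl2 := lg_ge hN hA hα
  unfold Large at hP
  unfold Concl
  rw [← hl] at hP hl2 hrl hδl ⊢
  obtain ⟨hd, hdl⟩ := hP
  have hlog2 := Real.log_two_gt_d9
  have hl0 : 0 < l := by linarith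
  obtain ⟨R, hR⟩ : ∃ R : ℝ, R = (C + 5) * l := ⟨_, rfl⟩
  have hCl : 0 < C * l := mul_pos hC hl0
  have hR5 : 5 * l ≤ R := by
    rw [hR]; nlinarith
  have hRC : C * l + 3 ≤ R := by
    rw [hR]; nlinarith
  have hR0 : 0 < R := by linarith
  have hlogR : 0 < Real.log R := Real.log_pos (by linarith)
  have hδR : 1 ≤ δ * R := by
    have h1 : 1 ≤ (δ * R) ^ 2 := by
      have h2 : (δ * R) ^ 2 = ((C + 5) ^ 2 * l) * (l * δ ^ 2) := by rw [hR]; ring
      have h3 : C ≤ (C + 5) ^ 2 * l := by nlinarith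
      have h4 : 0 ≤ l * δ ^ 2 := by positivity
      calc (1 : ℝ) ≤ C * (l * δ ^ 2) := by linarith
        _ ≤ ((C + 5) ^ 2 * l) * (l * δ ^ 2) := mul_le_mul_of_nonneg_right h3 h4
        _ = _ := h2.symm
    have h5 : 0 < δ * R := mul_pos hδ hR0
    nlinarith
  obtain ⟨Γ, hΓ, hΓ'⟩ := part_dense N hN A n B hB ψ H t r δ R hr hr1 hδ (by linarith) hδR hdens
  refine ⟨Γ, 1 / (8 * R), by positivity, ?_, ?_, hΓ'⟩
  · have h1 : Real.log (2 + l) ≤ 2 * Real.log R := by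
      have h2 : 2 + l ≤ R ^ 2 := by nlinarith
      calc Real.log (2 + l) ≤ Real.log (R ^ 2) := Real.log_le_log (by linarith) h2
        _ = 2 * Real.log R := by rw [Real.log_pow]; norm_num
    have h2 : 0 ≤ Real.log (1 / r) := Real.log_nonneg (by rw [le_div_iff₀ hr]; linarith)
    have h3 : (Real.log ((N : ℝ) / ((convProg B ψ H).ncard : ℝ)) + n * Real.log (1 / r)) / Real.log R ≤
        2 * (C * l) + 2 * (C * l) * C := by
      rw [div_le_iff₀ hlogR]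
      have h4 : Real.log ((N : ℝ) / ((convProg B ψ H).ncard : ℝ)) ≤ C * l * (2 * Real.log R) :=
        hdl.trans (mul_le_mul_of_nonneg_left h1 hCl.le)
      have h5 : (n : ℝ) * Real.log (1 / r) ≤ (C * l) * (C * (2 * Real.log R)) :=
        mul_le_mul hd (hrl.trans (mul_le_mul_of_nonneg_left h1 hC.le)) h2 hCl.le
      calc Real.log ((N : ℝ) / ((convProg B ψ H).ncard : ℝ)) + n * Real.log (1 / r)
          ≤ C * l * (2 * Real.log R) + (C * l) * (C * (2 * Real.log R)) := add_le_add h4 h5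
        _ = _ := by ring
    have h6 : 32 / δ ^ 2 ≤ 32 * (C * l) := by
      rw [div_le_iff₀ (by positivity)]
      linarith
    calc (Γ.card : ℝ) ≤ 380 * n + 301 +
        5 * ((Real.log ((N : ℝ) / ((convProg B ψ H).ncard : ℝ)) + n * Real.log (1 / r)) / Real.log R) +
        32 / δ ^ 2 := hΓ
      _ ≤ 380 * (C * l) + 440 * l + 5 * (2 * (C * l) + 2 * (C * l) * C) + 32 * (C * l) := by linarith
      _ = (10 * C ^ 2 + 422 * C + 440) * l := by ring
  · rw [hR, div_div]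
    refine le_of_eq ?_
    congr 1
    ring

/-- Q1 gives progressions. -/
theorem forward (h : Q1) : ∃ C : ℝ, 0 < C ∧ ∀ N : ℕ, 0 < N → ∀ A : Finset (ZMod N), A.Nonempty →
    (A.card : ℝ) / (N : ℝ) ≤ 1 / 2 →
    ∃ (n : ℕ) (B : Set (Fin n → ℝ)) (ψ : (Fin n → ℤ) →+ ZMod N) (H : AddSubgroup (ZMod N)),
      Body B ∧ Large C A n (convProg B ψ H) ∧ convProg B ψ H ⊆ twoAMinusTwoA A := by
  obtain ⟨C, hC, c, hc, h⟩ := h
  obtain ⟨D, hD⟩ : ∃ D : ℝ, D = 1 + 1 / c := ⟨_, rfl⟩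
  have hc1 : 0 < 1 / c := by positivity
  have hD1 : 1 ≤ D := by rw [hD]; linarith
  have hlogD : 0 ≤ Real.log D := Real.log_nonneg hD1
  have hlog2 : 0 < Real.log 2 := Real.log_pos (by norm_num)
  obtain ⟨κ, hκ⟩ : ∃ κ : ℝ, κ = 1 + Real.log D / Real.log 2 := ⟨_, rfl⟩
  have hκ0 : 0 ≤ κ := by rw [hκ]; positivity
  refine ⟨C + 2 + C * κ, by positivity, fun N hN A hA hα => ?_⟩
  have : NeZero N := ⟨hN.ne'⟩
  obtain ⟨Γ, ε, hε, h1, h2, h3⟩ := h N hN A hA hα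
  obtain ⟨l, hl⟩ : ∃ l : ℝ, l = lg A := ⟨_, rfl⟩
  have hl2 := lg_ge hN hA hα
  unfold Large
  rw [← hl] at h1 h2 hl2 ⊢
  have hlog2' := Real.log_two_gt_d9
  have hl0 : 0 < l := by linarith
  obtain ⟨ε', hε'⟩ : ∃ ε' : ℝ, ε' = min ε 1 := ⟨_, rfl⟩
  have hε'0 : 0 < ε' := by rw [hε']; exact lt_min hε one_pos
  obtain ⟨B, ψ, hB, h4, h5⟩ := prog_of_bohr Γ hε'0
  refine ⟨Γ.card + 1, B, ψ, ⊥, hB, ⟨?_, ?_⟩, ?_⟩
  · push_cast
    have : 0 ≤ C * κ * l := by positivity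
    nlinarith
  · have h6 : 1 / ε' + 1 ≤ (2 + l) * D := by
      have h7 : 1 / ε' ≤ 1 + l / c := by
        rw [div_le_iff₀ hε'0, hε']
        rcases le_total ε 1 with h8 | h8
        · rw [min_eq_left h8]
          have h9 : c ≤ ε * l := by rwa [div_le_iff₀ hl0] at h2
          have h10 : 1 ≤ ε * (l / c) := by
            rw [← mul_div_assoc, le_div_iff₀ hc, one_mul]
            exact h9
          nlinarith
        · rw [min_eq_right h8]
          have : 0 ≤ l / c := by positivity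
          linarith
      rw [hD]
      have h8 : (2 + l) * (1 + 1 / c) = 2 + l + 2 / c + l / c := by ring
      rw [h8]
      have : 0 ≤ 2 / c := by positivity
      linarith
    have h7 : Real.log (1 / ε' + 1) ≤ κ * Real.log (2 + l) := by
      have h8 : Real.log 2 ≤ Real.log (2 + l) := Real.log_le_log (by norm_num) (by linarith)
      have h9 : Real.log D ≤ Real.log D / Real.log 2 * Real.log (2 + l) := by
        rw [div_mul_eq_mul_div, le_div_iff₀ hlog2]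
        exact mul_le_mul_of_nonneg_left h8 hlogD
      calc Real.log (1 / ε' + 1) ≤ Real.log ((2 + l) * D) := Real.log_le_log (by positivity) h6
        _ = Real.log (2 + l) + Real.log D := Real.log_mul (by linarith) (by linarith)
        _ ≤ Real.log (2 + l) + Real.log D / Real.log 2 * Real.log (2 + l) := by linarith
        _ = κ * Real.log (2 + l) := by rw [hκ]; ring
    have hlog0 : 0 ≤ Real.log (2 + l) := Real.log_nonneg (by linarith)
    calc Real.log ((N : ℝ) / ((convProg B ψ ⊥).ncard : ℝ)) ≤ Γ.card * Real.log (1 / ε' + 1) := h5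
      _ ≤ (C * l) * (κ * Real.log (2 + l)) := mul_le_mul h1 h7 (by
          refine Real.log_nonneg ?_
          have : 0 < 1 / ε' := by positivity
          linarith) (by positivity)
      _ ≤ (C + 2 + C * κ) * l * Real.log (2 + l) := by
          have : 0 ≤ (C + 2) * (l * Real.log (2 + l)) := by positivity
          nlinarith
  · intro x hx
    refine h3 ?_
    rw [mem_bohr]
    intro γ hγ
    refine (h4 x hx γ hγ).trans ?_
    rw [hε']
    exact min_le_left _ _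

theorem result :
    -- (1) proper coset progressions inside improper convex ones, in every abelian group
    (∀ (G : Type u) [AddCommGroup G] (n : ℕ) (B : Set (Fin n → ℝ)) (ψ : (Fin n → ℤ) →+ G)
      (H : AddSubgroup G) [Finite H], Body B →
      ∃ (k : ℕ) (a : Fin k → G) (L : Fin k → ℕ), k ≤ n ∧
        (∀ m m' : Fin k → ℤ, (∀ i, |m i| ≤ L i) → (∀ i, |m' i| ≤ L i) →
          (∑ i, m i • a i) - (∑ i, m' i • a i) ∈ H → m = m') ∧
        (∀ m : Fin k → ℤ, (∀ i, |m i| ≤ L i) → ∀ h ∈ H, (∑ i, m i • a i) + h ∈ convProg B ψ H) ∧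
        (convProg B ψ H).ncard ≤ (12288 * (n + 1) ^ 7) ^ n * (Nat.card H * ∏ i, (2 * L i + 1))) ∧
    -- (2) Bohr sets inside improper convex coset progressions of `ℤ/N`
    (∀ N : ℕ, 0 < N → ∀ (n : ℕ) (B : Set (Fin n → ℝ)), Body B → ∀ (ψ : (Fin n → ℤ) →+ ZMod N)
      (H : AddSubgroup (ZMod N)) (R : ℝ), (n : ℝ) + 2 ≤ R →
      ∃ Γ : Finset (ZMod N),
        (Γ.card : ℝ) ≤ 255 * n + 1 +
          5 * (Real.log ((N : ℝ) / ((convProg B ψ H).ncard : ℝ)) / Real.log R) ∧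
        bohr Γ (1 / (8 * R)) ⊆ convProg B ψ H) ∧
    -- (3) sets that are dense on a translate of an improper convex coset progression
    (∀ N : ℕ, 0 < N → ∀ (A : Finset (ZMod N)) (n : ℕ) (B : Set (Fin n → ℝ)), Body B →
      ∀ (ψ : (Fin n → ℤ) →+ ZMod N) (H : AddSubgroup (ZMod N)) (t : ZMod N) (r δ R : ℝ), 0 < r → r ≤ 1 →
      0 < δ → (n : ℝ) + 3 ≤ R → 1 ≤ δ * R →
      δ * ((convProg ((1 + r) • B) ψ H).ncard : ℝ) ≤
        ({y : ZMod N | y ∈ A ∧ y - t ∈ convProg B ψ H}.ncard : ℝ) →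
      ∃ Γ : Finset (ZMod N),
        (Γ.card : ℝ) ≤ 380 * n + 301 +
          5 * ((Real.log ((N : ℝ) / ((convProg B ψ H).ncard : ℝ)) + n * Real.log (1 / r)) / Real.log R) +
          32 / δ ^ 2 ∧
        bohr Γ (1 / (8 * R)) ⊆ twoAMinusTwoA A) ∧
    -- (4) the conclusion of Q1 if `2A - 2A`, or a translate of `A`, contains a large progression
    (∀ C : ℝ, 0 < C → ∀ N : ℕ, 0 < N → ∀ A : Finset (ZMod N), A.Nonempty →
      (A.card : ℝ) / (N : ℝ) ≤ 1 / 2 → ∀ (n : ℕ) (B : Set (Fin n → ℝ)), Body B →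
      ∀ (ψ : (Fin n → ℤ) →+ ZMod N) (H : AddSubgroup (ZMod N)), Large C A n (convProg B ψ H) →
      (convProg B ψ H ⊆ twoAMinusTwoA A ∨ ∃ t : ZMod N, ∀ x ∈ convProg B ψ H, t + x ∈ A) →
      Concl (265 * C + 2) (1 / (8 * (C + 3))) A) ∧
    -- (5) the conclusion of Q1 if `A` is dense on a translate of a large progression
    (∀ C : ℝ, 0 < C → ∀ N : ℕ, 0 < N → ∀ A : Finset (ZMod N), A.Nonempty →
      (A.card : ℝ) / (N : ℝ) ≤ 1 / 2 → ∀ (n : ℕ) (B : Set (Fin n → ℝ)), Body B →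
      ∀ (ψ : (Fin n → ℤ) →+ ZMod N) (H : AddSubgroup (ZMod N)), Large C A n (convProg B ψ H) →
      ∀ (t : ZMod N) (r δ : ℝ), 0 < r → r ≤ 1 → Real.log (1 / r) ≤ C * Real.log (2 + lg A) →
      0 < δ → 1 ≤ C * lg A * δ ^ 2 →
      δ * ((convProg ((1 + r) • B) ψ H).ncard : ℝ) ≤
        ({y : ZMod N | y ∈ A ∧ y - t ∈ convProg B ψ H}.ncard : ℝ) →
      Concl (10 * C ^ 2 + 422 * C + 440) (1 / (8 * (C + 5))) A) ∧
    -- (6) Q1 is equivalent to the existence of large progressions in `2A - 2A`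
    (Q1 ↔ ∃ C : ℝ, 0 < C ∧ ∀ N : ℕ, 0 < N → ∀ A : Finset (ZMod N), A.Nonempty →
      (A.card : ℝ) / (N : ℝ) ≤ 1 / 2 →
      ∃ (n : ℕ) (B : Set (Fin n → ℝ)) (ψ : (Fin n → ℤ) →+ ZMod N) (H : AddSubgroup (ZMod N)),
        Body B ∧ Large C A n (convProg B ψ H) ∧ convProg B ψ H ⊆ twoAMinusTwoA A) := by
  refine ⟨?_, part_two, part_dense, part_three, part_five, forward, ?_⟩
  · intro G _ n B ψ H _ hB
    obtain ⟨k, w, L, hk, hin, hprop, hc⟩ := inner_proper (Γ := G) hB ψ H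
    have hψ : ∀ m : Fin k → ℤ, ∑ i, m i • ψ (w i) = ψ (lin w m) := by
      intro m
      have h1 : ψ (lin w m) = ψ (∑ i, m i • w i) := rfl
      rw [h1, map_sum]
      exact Finset.sum_congr rfl fun i _ => (map_zsmul ψ _ _).symm
    refine ⟨k, fun i => ψ (w i), L, hk, ?_, ?_, ?_⟩
    · intro m m' hm hm' h
      rw [hψ, hψ] at h
      exact hprop m hm m' hm' h
    · intro m hm h hh
      rw [hψ]
      exact ⟨lin w m, hin m hm, h, hh, rfl⟩
    · rw [← bx_ncard]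
      exact hc
  · rintro ⟨C, hC, h⟩
    refine ⟨265 * C + 2, by positivity, 1 / (8 * (C + 3)), by positivity, fun N hN A hA hα => ?_⟩
    obtain ⟨n, B, ψ, H, hB, hP, hsub⟩ := h N hN A hA hα
    exact part_three C hC N hN A hA hα n B hB ψ H hP (Or.inl hsub)

end Pool.Agent.Results.MP_169871_nt.ImproperProgressions
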