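import Pool.Agent.Q248.BR.LS
import Pool.Agent.Q248.BR.ST
import Pool.Agent.H217R3.AK.Bsg

/-!
# Q1 for sets of large additive energy

Let `A ⊆ ℤ/N` have additive energy at least `|A|³/K` (for instance `|A+A| ≤ K|A|`), put `κ = log (2K)` and
`λ = κ (1 + log (1 + κ))`. Then for every `R ≥ C κ` the set `2A - 2A` contains a Bohr set with at most
`5 log (1/α) / log R + C λ⁵` frequencies and radius `1 / (8 R)`. In particular the conclusion of Q1 holds, with absolute
constants and even with the constant radius `1/16`, as soon as `λ⁵ (1 + log (1 + κ)) ≤ log (1/α)`.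

Proof. The Balog–Szemerédi–Gowers theorem gives a large subset of small doubling; the structure theorem
`H112.structure_thm` (near-polynomial Freiman–Ruzsa theorem) and John's theorem give a proper progression `P` of
dimension `O(κ)` with `|P| ≥ exp (- O(λ)) |A|` such that `A` has density `exp (- O(λ))` on a translate of `P`
(`ST.lean`). A local form of the argument of Croot–Sisask and Sanders, with almost periods in `P` and a local form of
Chang's theorem (`CS`, `CS2`, `CS3`, `FS`, `CH`), shows that `2A - 2A` contains the intersection of a Bohr set with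
`O(λ⁵)` frequencies and a multiple `exp (- O(λ⁴)) P` of the progression (`LS.lean`); the latter contains a Bohr set of
small dimension by the theorem of the file `ProperProgressions`.
-/

set_option autoImplicit false

namespace Pool.Agent.Results.MP_169871_nt.LargeEnergy

open Pool.Agent.TH858 Pool.Agent.Q248.BR
open scoped Pointwise

/-- The Bohr set `B(Γ, ε) = {x ∈ ℤ/N : ‖γ x / N‖ ≤ ε for all γ ∈ Γ}`; the norm is the distance to the nearest
integer. -/
def bohr {N : ℕ} (Γ : Finset (ZMod N)) (ε : ℝ) : Set (ZMod N) :=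
  {x | ∀ γ ∈ Γ, |((γ * x).val : ℝ) / (N : ℝ) - ((round (((γ * x).val : ℝ) / (N : ℝ)) : ℤ) : ℝ)| ≤ ε}

/-- The set `2A - 2A`. -/
def twoAMinusTwoA {N : ℕ} (A : Finset (ZMod N)) : Set (ZMod N) :=
  {x | ∃ a₁ ∈ A, ∃ a₂ ∈ A, ∃ a₃ ∈ A, ∃ a₄ ∈ A, x = a₁ + a₂ - a₃ - a₄}

/-- The additive energy: the number of quadruples `(a, b, c, d)` of elements of `A` with `a + b = c + d`. -/
noncomputable def energy {N : ℕ} (A : Finset (ZMod N)) : ℕ :=
  {p : (ZMod N × ZMod N) × (ZMod N × ZMod N) |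
    p.1.1 ∈ A ∧ p.1.2 ∈ A ∧ p.2.1 ∈ A ∧ p.2.2 ∈ A ∧ p.1.1 + p.1.2 = p.2.1 + p.2.2}.ncard

/-- The function `λ(K) = log (2K) (1 + log (1 + log (2K)))`. -/
noncomputable def lam (K : ℝ) : ℝ := Real.log (2 * K) * (1 + Real.log (1 + Real.log (2 * K)))

theorem energy_le {N : ℕ} [NeZero N] (A : Finset (ZMod N)) : energy A ≤ A.addEnergy A := by
  classical
  unfold energy Finset.addEnergy
  rw [← Set.ncard_coe_finset]
  refine Set.ncard_le_ncard_of_injOn (fun p => ((p.1.1, p.2.1), (p.1.2, p.2.2))) ?_ ?_ (Set.toFinite _)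
  · rintro ⟨⟨a, b⟩, ⟨c, d⟩⟩ ⟨h1, h2, h3, h4, h5⟩
    simp only [Finset.coe_filter, Finset.mem_product, Set.mem_ofPred_eq]
    exact ⟨⟨⟨h1, h3⟩, ⟨h2, h4⟩⟩, h5⟩
  · rintro ⟨⟨a, b⟩, ⟨c, d⟩⟩ _ ⟨⟨a', b'⟩, ⟨c', d'⟩⟩ _ h
    simp only [Prod.mk.injEq] at h ⊢
    tauto

/-- The main theorem, explicit constants. -/
theorem explicit {N : ℕ} [NeZero N] (A : Finset (ZMod N)) (hA : A.Nonempty) (K : ℝ) (hK1 : 1 ≤ K)
    (hE : (A.card : ℝ) ^ 3 ≤ K * (A.addEnergy A : ℕ)) (R : ℝ) (hR : 10 ^ 40 * Real.log (2 * K) ≤ R) :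
    ∃ Γ : Finset (ZMod N),
      (Γ.card : ℝ) ≤ 5 * (Real.log ((N : ℝ) / A.card) / Real.log R) + 10 ^ 40 * lam K ^ 5 ∧
      ∀ x : ZMod N, (∀ g ∈ Γ, CB.nn (g * x) ≤ 1 / (8 * R)) →
        ∃ a₁ ∈ A, ∃ a₂ ∈ A, ∃ a₃ ∈ A, ∃ a₄ ∈ A, x = a₁ + a₂ - a₃ - a₄ := by
  classical
  have hNpos : (0 : ℝ) < N := Nat.cast_pos.mpr (NeZero.pos N)
  have hlog2 := Real.log_two_gt_d9
  have hK0 : 0 < K := by linarith
  obtain ⟨κ, hκ⟩ : ∃ κ : ℝ, κ = Real.log (2 * K) := ⟨_, rfl⟩
  obtain ⟨l, hl⟩ : ∃ l : ℝ, l = lam K := ⟨_, rfl⟩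
  have hl' : l = κ * (1 + Real.log (1 + κ)) := by rw [hl, hκ]; rfl
  rw [← hκ] at hR
  rw [← hl]
  have hκlog2 : Real.log 2 ≤ κ := by
    rw [hκ]; exact Real.log_le_log (by norm_num) (by linarith)
  have hκ69 : (0.69 : ℝ) ≤ κ := by linarith
  have hlogκ : 0 ≤ Real.log (1 + κ) := Real.log_nonneg (by linarith)
  have hκl : κ ≤ l := by rw [hl']; nlinarith
  have hlogK : Real.log K = κ - Real.log 2 := by
    rw [hκ, Real.log_mul (by norm_num) hK0.ne']; ring
  -- Balog–Szemerédi–Gowers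
  obtain ⟨B, hBA, hBne, hAB, hBB⟩ := Pool.Agent.H217R3.AK.bsg A hA K hK0 hE
  obtain ⟨K₁, hK₁⟩ : ∃ K₁ : ℝ, K₁ = 2 ^ 22 * K ^ 10 := ⟨_, rfl⟩
  rw [← hK₁] at hBB
  have hK₁1 : 1 ≤ K₁ := by
    rw [hK₁]
    have : 1 ≤ K ^ 10 := one_le_pow₀ hK1
    linarith
  have hBpos : (0 : ℝ) < B.card := by exact_mod_cast hBne.card_pos
  have hBB2 : ((B + B).card : ℝ) ≤ K₁ ^ 2 * B.card := by
    have h1 : ((B + B).card : ℝ) * B.card ≤ (B - B).card * (B - B).card := by
      exact_mod_cast Finset.ruzsa_triangle_inequality_add_sub_sub B B B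
    have h2 : ((B - B).card : ℝ) * (B - B).card ≤ (K₁ * B.card) * (K₁ * B.card) :=
      mul_le_mul hBB hBB (Nat.cast_nonneg _) (by positivity)
    have h3 : ((B + B).card : ℝ) * B.card ≤ (K₁ ^ 2 * B.card) * B.card := by
      calc _ ≤ _ := h1
        _ ≤ _ := h2
        _ = _ := by ring
    exact le_of_mul_le_mul_right h3 hBpos
  have hK₂1 : 1 ≤ K₁ ^ 2 := one_le_pow₀ hK₁1
  obtain ⟨κ', hκ'⟩ : ∃ κ' : ℝ, κ' = Real.log (2 * K₁ ^ 2) := ⟨_, rfl⟩
  obtain ⟨l', hl''⟩ : ∃ l' : ℝ, l' = κ' * (1 + Real.log (1 + κ')) := ⟨_, rfl⟩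
  have hκ'eq : κ' = 45 * Real.log 2 + 20 * Real.log K := by
    rw [hκ', hK₁, Real.log_mul (by norm_num) (by positivity), Real.log_pow,
      Real.log_mul (by norm_num) (by positivity), Real.log_pow, Real.log_pow]
    push_cast
    ring
  have hκ'κ : κ' ≤ 45 * κ := by
    rw [hκ'eq, hlogK]; linarith
  have hκ'69 : (0.69 : ℝ) ≤ κ' := by
    rw [hκ'eq]
    have : 0 ≤ Real.log K := Real.log_nonneg hK1
    linarith
  have hlogκ' : 0 ≤ Real.log (1 + κ') := Real.log_nonneg (by linarith)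
  have hκ'l' : κ' ≤ l' := by rw [hl'']; nlinarith
  have hl'l : l' ≤ 225 * l := by
    have h1 : Real.log (1 + κ') ≤ 4 + Real.log (1 + κ) := by
      have h2 : Real.log (1 + κ') ≤ Real.log (45 * (1 + κ)) :=
        Real.log_le_log (by linarith) (by linarith)
      rw [Real.log_mul (by norm_num) (by linarith)] at h2
      have h3 : Real.log 45 ≤ 4 := by
        rw [Real.log_le_iff_le_exp (by norm_num)]
        have h4 : Real.exp 4 = Real.exp 1 ^ 4 := by rw [← Real.exp_nat_mul]; norm_num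
        rw [h4]
        have h5 := Real.exp_one_gt_d9
        calc (45 : ℝ) ≤ 2.7 ^ 4 := by norm_num
          _ ≤ Real.exp 1 ^ 4 := pow_le_pow_left₀ (by norm_num) (by linarith) 4
      linarith
    rw [hl'', hl']
    calc κ' * (1 + Real.log (1 + κ')) ≤ (45 * κ) * (5 + Real.log (1 + κ)) :=
          mul_le_mul hκ'κ (by linarith) (by linarith) (by linarith)
      _ ≤ (45 * κ) * (5 * (1 + Real.log (1 + κ))) := by
          apply mul_le_mul_of_nonneg_left _ (by linarith)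
          linarith
      _ = 225 * (κ * (1 + Real.log (1 + κ))) := by ring
  -- the structure theorem
  obtain ⟨d, a, L, t, B₁, hd, hinj, hB₁, hB₁t, hdens, hsize⟩ := struct hK₂1 B hBne hBB2 κ' hκ'
  rw [← hl''] at hdens hsize
  obtain ⟨q, hq⟩ : ∃ q : ℕ, q = ⌈8608 * l'⌉₊ := ⟨_, rfl⟩
  have hq1 : 8608 * l' ≤ q := by rw [hq]; exact Nat.le_ceil _
  have hq2 : (q : ℝ) ≤ 8610 * l' := by
    rw [hq]
    have := (Nat.ceil_lt_add_one (show (0 : ℝ) ≤ 8608 * l' by linarith)).le
    linarith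
  have hqcond : 32 * (3 : ℝ) ^ d ≤ Real.exp (-(8000 * l')) * Real.exp q := by
    have h1 : (32 : ℝ) ≤ Real.exp (5 * l') := by
      have h2 : Real.exp (5 * Real.log 2) ≤ Real.exp (5 * l') := Real.exp_le_exp.2 (by linarith)
      have h3 : Real.exp (5 * Real.log 2) = 32 := by
        rw [show (5 : ℝ) * Real.log 2 = (5 : ℕ) * Real.log 2 by norm_num, Real.exp_nat_mul,
          Real.exp_log (by norm_num)]
        norm_num
      linarith
    have h2 : (3 : ℝ) ^ d ≤ Real.exp (603 * l') := by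
      have h3 : (3 : ℝ) ≤ Real.exp 2 := by
        have h4 : Real.exp 2 = Real.exp 1 ^ 2 := by rw [← Real.exp_nat_mul]; norm_num
        rw [h4]
        have h5 := Real.exp_one_gt_d9
        nlinarith
      calc (3 : ℝ) ^ d ≤ Real.exp 2 ^ d := pow_le_pow_left₀ (by norm_num) h3 d
        _ = Real.exp (d * 2) := by rw [← Real.exp_nat_mul]
        _ ≤ Real.exp (603 * l') := Real.exp_le_exp.2 (by linarith)
    calc 32 * (3 : ℝ) ^ d ≤ Real.exp (5 * l') * Real.exp (603 * l') :=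
          mul_le_mul h1 h2 (by positivity) (Real.exp_pos _).le
      _ = Real.exp (608 * l') := by rw [← Real.exp_add]; congr 1; ring
      _ ≤ Real.exp (-(8000 * l') + q) := Real.exp_le_exp.2 (by linarith)
      _ = _ := by rw [Real.exp_add]
  have hRd : (d : ℝ) + 2 ≤ R := by
    refine le_trans ?_ hR
    have h1 : (d : ℝ) + 2 ≤ 13505 * κ := by linarith
    refine h1.trans (mul_le_mul_of_nonneg_right (by norm_num) (by linarith))
  obtain ⟨Γ, hΓ, hΓ'⟩ := strong_dense a L hinj R (Real.exp (-(8000 * l'))) hRd (Real.exp_pos _)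
    (by rw [Real.exp_le_one_iff]; linarith) q hqcond B₁ t hB₁t hdens
  refine ⟨Γ, ?_, ?_⟩
  · refine hΓ.trans ?_
    have hXpos : (0 : ℝ) < (GP.XX a L).card := by
      have : (0 : Fin d → ℤ) ∈ GP.box L := by rw [GP.mem_box]; intro i; simp
      have h2 : (GP.XX a L).Nonempty := ⟨_, Finset.mem_image_of_mem (GP.ev a) this⟩
      exact_mod_cast h2.card_pos
    have hApos : (0 : ℝ) < A.card := by exact_mod_cast hA.card_pos
    have hR2 : 2 ≤ R := by
      have : (0 : ℝ) ≤ d := Nat.cast_nonneg d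
      linarith
    have hlogR : (0.69 : ℝ) ≤ Real.log R := by
      have := Real.log_le_log (by norm_num) hR2
      linarith
    have h1 : Real.log ((N : ℝ) / (GP.XX a L).card) ≤ Real.log ((N : ℝ) / A.card) + 4000000 * l := by
      have h2 : (A.card : ℝ) ≤ (16 * K * Real.exp (14000 * l')) * (GP.XX a L).card := by
        calc (A.card : ℝ) ≤ 8 * K * B.card := hAB
          _ ≤ 8 * K * (2 * Real.exp (14000 * l') * (GP.XX a L).card) :=
              mul_le_mul_of_nonneg_left hsize (by positivity)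
          _ = _ := by ring
      have h3 : (N : ℝ) / (GP.XX a L).card ≤ (N / A.card) * (16 * K * Real.exp (14000 * l')) := by
        rw [div_mul_eq_mul_div, div_le_div_iff₀ hXpos hApos, mul_assoc]
        exact mul_le_mul_of_nonneg_left h2 hNpos.le
      have h4 := Real.log_le_log (by positivity) h3
      rw [Real.log_mul (by positivity) (by positivity), Real.log_mul (by positivity) (by positivity),
        Real.log_exp] at h4
      have h5 : Real.log (16 * K) ≤ 4 * κ := by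
        have h6 : Real.log (16 * K) = 4 * Real.log 2 + Real.log K := by
          rw [Real.log_mul (by norm_num) hK0.ne', show (16 : ℝ) = 2 ^ 4 by norm_num, Real.log_pow]
          push_cast
          ring
        rw [h6, hlogK]
        linarith
      linarith
    have h2 : Real.log ((N : ℝ) / (GP.XX a L).card) / Real.log R ≤
        Real.log ((N : ℝ) / A.card) / Real.log R + 6000000 * l := by
      rw [div_add' _ _ _ (show (0 : ℝ) < Real.log R by linarith).ne']
      apply div_le_div_of_nonneg_right _ (by linarith)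
      nlinarith
    have h3 : (q : ℝ) ^ 5 ≤ (2000000 * l) ^ 5 := pow_le_pow_left₀ (Nat.cast_nonneg _) (by linarith) 5
    have h4 : l ≤ 5 * l ^ 5 := by
      have h5 : (0.69 : ℝ) ^ 4 ≤ l ^ 4 := pow_le_pow_left₀ (by norm_num) (by linarith) 4
      have h6 : 1 ≤ 5 * l ^ 4 := by
        have : (1 : ℝ) ≤ 5 * 0.69 ^ 4 := by norm_num
        linarith
      calc l = l * 1 := by ring
        _ ≤ l * (5 * l ^ 4) := mul_le_mul_of_nonneg_left h6 (by linarith)
        _ = _ := by ring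
    have h5 : (2000000 * l) ^ 5 = 2000000 ^ 5 * l ^ 5 := by ring
    rw [h5] at h3
    have h6 : 0 ≤ l ^ 5 := by
      have : 0 ≤ l := by linarith
      positivity
    have h7 : (30000000 : ℝ) * (5 * l ^ 5) + 2 ^ 24 * (2000000 ^ 5 * l ^ 5) ≤ 10 ^ 40 * l ^ 5 := by
      have : (30000000 : ℝ) * (5 * l ^ 5) + 2 ^ 24 * (2000000 ^ 5 * l ^ 5) =
        (30000000 * 5 + 2 ^ 24 * 2000000 ^ 5) * l ^ 5 := by ring
      rw [this]
      exact mul_le_mul_of_nonneg_right (by norm_num) h6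
    linarith
  · intro x hx
    obtain ⟨a₁, h3, a₂, h4, a₃, h5, a₄, h6, h7⟩ := hΓ' x hx
    exact ⟨a₁, hBA (hB₁ h3), a₂, hBA (hB₁ h4), a₃, hBA (hB₁ h5), a₄, hBA (hB₁ h6), h7⟩

/-- **Q1 for sets of large additive energy.**
(1) There is an absolute constant `C` such that for all nonempty `A ⊆ ℤ/N` with at least `|A|³/K` additive quadruples
and all `R ≥ C log (2K)`, the set `2A - 2A` contains a Bohr set with at most `5 log (1/α) / log R + C λ(K)⁵`
frequencies and radius `1 / (8 R)`.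
(2) For every `M` there is `C` such that for the nonempty sets of density `α ≤ 1/2` with at least `|A|³/K` additive
quadruples, where `λ(K)⁵ (1 + log (1 + log (2K))) ≤ M log (1/α)`, the set `2A - 2A` contains a Bohr set with at most
`C log (1/α)` frequencies and radius `1/16`. -/
theorem result :
    (∃ C : ℝ, 0 < C ∧ ∀ (N : ℕ), 0 < N → ∀ (A : Finset (ZMod N)) (K R : ℝ), A.Nonempty → 1 ≤ K →
      (A.card : ℝ) ^ 3 ≤ K * (energy A : ℝ) → C * Real.log (2 * K) ≤ R →
      ∃ Γ : Finset (ZMod N),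
        (Γ.card : ℝ) ≤ 5 * (Real.log ((N : ℝ) / (A.card : ℝ)) / Real.log R) + C * lam K ^ 5 ∧
        bohr Γ (1 / (8 * R)) ⊆ twoAMinusTwoA A) ∧
    (∀ M : ℝ, 0 < M → ∃ C : ℝ, 0 < C ∧ ∀ (N : ℕ), 0 < N → ∀ (A : Finset (ZMod N)) (K : ℝ),
      A.Nonempty → (A.card : ℝ) / (N : ℝ) ≤ 1 / 2 → 1 ≤ K → (A.card : ℝ) ^ 3 ≤ K * (energy A : ℝ) →
      lam K ^ 5 * (1 + Real.log (1 + Real.log (2 * K))) ≤ M * Real.log ((N : ℝ) / (A.card : ℝ)) →
      ∃ Γ : Finset (ZMod N),
        (Γ.card : ℝ) ≤ C * Real.log ((N : ℝ) / (A.card : ℝ)) ∧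
        bohr Γ (1 / 16) ⊆ twoAMinusTwoA A) := by
  have key : ∀ (N : ℕ), 0 < N → ∀ (A : Finset (ZMod N)) (K R : ℝ), A.Nonempty → 1 ≤ K →
      (A.card : ℝ) ^ 3 ≤ K * (energy A : ℝ) → 10 ^ 40 * Real.log (2 * K) ≤ R →
      ∃ Γ : Finset (ZMod N),
        (Γ.card : ℝ) ≤ 5 * (Real.log ((N : ℝ) / (A.card : ℝ)) / Real.log R) + 10 ^ 40 * lam K ^ 5 ∧
        bohr Γ (1 / (8 * R)) ⊆ twoAMinusTwoA A := by
    intro N hN A K R hA hK1 hE hR
    have : NeZero N := ⟨hN.ne'⟩
    have hE' : (A.card : ℝ) ^ 3 ≤ K * (A.addEnergy A : ℕ) := by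
      refine hE.trans (mul_le_mul_of_nonneg_left ?_ (by linarith))
      exact_mod_cast energy_le A
    obtain ⟨Γ, h1, h2⟩ := explicit A hA K hK1 hE' R hR
    exact ⟨Γ, h1, fun x hx => h2 x fun g hg => hx g hg⟩
  refine ⟨⟨10 ^ 40, by positivity, key⟩, ?_⟩
  intro M hM
  refine ⟨15 + 400 * 10 ^ 40 * M, by positivity, ?_⟩
  intro N hN A K hA hα hK1 hE hlam
  classical
  have : NeZero N := ⟨hN.ne'⟩
  obtain ⟨l, hl⟩ : ∃ l : ℝ, l = Real.log ((N : ℝ) / (A.card : ℝ)) := ⟨_, rfl⟩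
  rw [← hl] at hlam ⊢
  have hlog2 := Real.log_two_gt_d9
  have hlog2' := Real.log_two_lt_d9
  obtain ⟨κ, hκ⟩ : ∃ κ : ℝ, κ = Real.log (2 * K) := ⟨_, rfl⟩
  have hκ69 : (0.69 : ℝ) ≤ κ := by
    have : Real.log 2 ≤ Real.log (2 * K) := Real.log_le_log (by norm_num) (by linarith)
    linarith
  have hlogκ : 0 ≤ Real.log (1 + κ) := Real.log_nonneg (by linarith)
  have hlam0 : 0 ≤ lam K := by
    unfold lam
    rw [← hκ]
    positivity
  rw [← hκ] at hlam
  obtain ⟨R, hR⟩ : ∃ R : ℝ, R = 10 ^ 40 * κ := ⟨_, rfl⟩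
  have hR8 : (8 : ℝ) ≤ R := by
    rw [hR]
    have : (8 : ℝ) ≤ 10 ^ 40 * 0.69 := by norm_num
    linarith
  have hR0 : 0 < R := by linarith
  obtain ⟨Γ, hΓ, hΓ'⟩ := key N hN A K R hA hK1 hE (by rw [hR, hκ])
  rw [← hl] at hΓ
  have hlogR : (2 : ℝ) ≤ Real.log R := by
    have h1 := Real.log_le_log (by norm_num) hR8
    have h2 : Real.log 8 = 3 * Real.log 2 := by
      rw [show (8 : ℝ) = 2 ^ 3 by norm_num, Real.log_pow]; push_cast; ring
    linarith
  obtain ⟨n, hn1, hn2⟩ := exists_nat_pow_near (show (1 : ℝ) ≤ R by linarith) one_lt_two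
  obtain ⟨s, hs⟩ : ∃ s : ℕ, s = n + 1 := ⟨_, rfl⟩
  rw [← hs] at hn2
  have hs1 : (s : ℝ) + 1 ≤ 3 * Real.log R := by
    have h1 := Real.log_le_log (by positivity) hn1
    rw [Real.log_pow] at h1
    have h2 : (s : ℝ) = n + 1 := by rw [hs]; push_cast; ring
    have h3 : (n : ℝ) * 0.69 ≤ Real.log R := by
      have : (0 : ℝ) ≤ n := Nat.cast_nonneg n
      nlinarith
    linarith
  have hlogR' : Real.log R ≤ 120 * (1 + Real.log (1 + κ)) := by
    rw [hR, Real.log_mul (by norm_num) (by linarith), Real.log_pow]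
    have h1 : Real.log κ ≤ Real.log (1 + κ) := Real.log_le_log (by linarith) (by linarith)
    have h2 : Real.log 10 ≤ 2.9 := by
      rw [Real.log_le_iff_le_exp (by norm_num)]
      have h4 : Real.exp 2.9 = Real.exp 1 ^ 2 * Real.exp 0.9 := by
        rw [← Real.exp_nat_mul, ← Real.exp_add]; norm_num
      have h5 := Real.exp_one_gt_d9
      have h6 : (1.9 : ℝ) ≤ Real.exp 0.9 := by
        have := Real.add_one_le_exp (0.9 : ℝ)
        linarith
      rw [h4]
      nlinarith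
    push_cast
    linarith
  refine ⟨(Γ ×ˢ Finset.range (s + 1)).image fun p => 2 ^ p.2 * p.1, ?_, ?_⟩
  · have e1 : (((Γ ×ˢ Finset.range (s + 1)).image fun p => (2 : ZMod N) ^ p.2 * p.1).card : ℝ) ≤
        Γ.card * (s + 1) := by
      have h1 : ((Γ ×ˢ Finset.range (s + 1)).image fun p => (2 : ZMod N) ^ p.2 * p.1).card ≤
          Γ.card * (s + 1) := by
        refine Finset.card_image_le.trans ?_
        rw [Finset.card_product, Finset.card_range]
      exact_mod_cast h1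
    have h5 : 0 ≤ lam K ^ 5 := by positivity
    have hl0 : 0 ≤ l := by
      by_contra hcon
      push Not at hcon
      have h6 : 0 ≤ lam K ^ 5 * (1 + Real.log (1 + κ)) := by positivity
      nlinarith
    calc _ ≤ Γ.card * ((s : ℝ) + 1) := e1
      _ ≤ (5 * (l / Real.log R) + 10 ^ 40 * lam K ^ 5) * (3 * Real.log R) := by
          apply mul_le_mul hΓ hs1 (by positivity)
          positivity
      _ = 15 * l + 3 * 10 ^ 40 * (lam K ^ 5 * Real.log R) := by
          field_simp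
          ring
      _ ≤ 15 * l + 3 * 10 ^ 40 * (lam K ^ 5 * (120 * (1 + Real.log (1 + κ)))) := by
          have := mul_le_mul_of_nonneg_left hlogR' h5
          linarith
      _ = 15 * l + 360 * 10 ^ 40 * (lam K ^ 5 * (1 + Real.log (1 + κ))) := by ring
      _ ≤ 15 * l + 360 * 10 ^ 40 * (M * l) := by linarith
      _ ≤ (15 + 400 * 10 ^ 40 * M) * l := by
          have : 0 ≤ M * l := by positivity
          linarith
  · intro x hx
    refine hΓ' fun g hg => ?_
    have e1 : CB.nn (g * x) ≤ 1 / 16 / 2 ^ s := by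
      refine nn_pow (g * x) s fun i hi => ?_
      have e2 := hx (2 ^ i * g) (by
        rw [Finset.mem_image]
        exact ⟨(g, i), Finset.mem_product.2 ⟨hg, Finset.mem_range.2 (by omega)⟩, rfl⟩)
      rw [← mul_assoc]
      exact e2
    refine e1.trans ?_
    rw [div_div]
    apply one_div_le_one_div_of_le (by positivity)
    linarith

end Pool.Agent.Results.MP_169871_nt.LargeEnergy
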